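import Pool.Agent.N916.GB.Stm
import Pool.Agent.Y710.CQ.BIL
import Pool.Agent.Y356.CQ.EQ
import Pool.Agent.Y405.CQ.MER

/-!
# Project GB (helper916), parts BIL, EQ, ME8, ND (helper19)

Bilinear sums and equidistribution of quadratic symbols of odd primes, Mertens' theorem modulo `8`,
nondegeneracy of the labels.
-/

set_option autoImplicit false
set_option linter.all false

open scoped Classical

namespace Pool.Agent.N19.GB

open Finset
open Pool.Agent.Y703.CQ (nr sg)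
open Pool.Agent.N973.ND (uu)
open Pool.Agent.N916.GB

/-! ### ME8 -/

theorem t_ME8 : S_ME8 := by
  intro a ha
  have ha' : (a % 8).Coprime 8 := by
    have h1 : a.Coprime 8 := by
      have h2 : a.Coprime 2 := by
        rw [Nat.coprime_two_right]
        exact Nat.odd_iff.2 ha
      have h3 : (8 : ℕ) = 2 ^ 3 := by norm_num
      rw [h3]
      exact Nat.Coprime.pow_right 3 h2
    rw [Nat.coprime_iff_gcd_eq_one, ← Nat.gcd_rec, Nat.gcd_comm]
    exact h1
  obtain ⟨C, -, hC⟩ := Pool.Agent.Y405.CQ.mertens_ap 8 (by norm_num) (a % 8)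
    (Nat.mod_lt _ (by norm_num)) ha'
  refine ⟨C, fun y hy => ?_⟩
  have h1 := hC y hy
  have h2 : Nat.totient 8 = 4 := by decide
  rw [h2] at h1
  have h3 : (range (y + 1)).filter (fun p => p.Prime ∧ p % 8 = a % 8) =
      (Icc 1 y).filter (fun p => p.Prime ∧ p % 8 = a % 8) := by
    ext p
    rw [mem_filter, mem_filter, mem_range, mem_Icc]
    constructor
    · rintro ⟨g1, g2, g3⟩
      exact ⟨⟨g2.one_lt.le, by omega⟩, g2, g3⟩
    · rintro ⟨⟨g0, g1⟩, g2, g3⟩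
      exact ⟨by omega, g2, g3⟩
  rw [h3]
  exact_mod_cast h1

/-! ### EQ -/

theorem prs_univ (ι : Type) [Fintype ι] [LinearOrder ι] :
    Pool.Agent.Y703.CQ.prs (univ : Finset ι) = ps ι := by
  ext e
  unfold Pool.Agent.Y703.CQ.prs ps
  simp only [mem_filter, mem_univ, true_and, forall_true_left]
  exact ⟨fun h => h.2, fun h => ⟨h.ne', h⟩⟩

theorem t_EQ : S_EQ := by
  intro ι _ _ C X κ hκ hC HBh
  have key : ∀ s : Finset (ι × ι), s = Pool.Agent.Y703.CQ.prs (univ : Finset ι) →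
      ∀ Q : (s → ZMod 2) → Prop,
      |(((Fintype.piFinset C).filter fun p => Q fun e => nr (p e.1.1) (p e.1.2)).card : ℝ) -
        ((univ.filter Q).card : ℝ) / 2 ^ s.card * ∏ j, ((C j).card : ℝ)| ≤
      2 ^ s.card * (κ * ∏ j, (X j : ℝ)) := by
    rintro _ rfl Q
    exact Pool.Agent.Y356.CQ.t_EQ ι univ C X κ hκ hC
      (fun i l hil _ c d hc hd => HBh i l hil c d hc hd) Q
  exact key (ps ι) (prs_univ ι).symm

/-! ### ND -/

theorem nr_two {p : ℕ} (hp : p.Prime) (h2 : p ≠ 2) :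
    nr p 2 = if p % 8 = 1 ∨ p % 8 = 7 then 0 else 1 := by
  haveI : Fact p.Prime := ⟨hp⟩
  have h := ZMod.exists_sq_eq_two_iff (p := p) h2
  unfold nr
  push_cast
  simp only [h]

theorem t_ND : S_ND := by
  intro S₀ S₁ h0 h1 hN h3 h5 w s hws
  by_contra hcon
  push Not at hcon
  have h2 : 2 ∉ S₀ := fun h => (h0 2 h).2 rfl
  have key : ∀ p ∈ S₁, w 2 * nr p 2 + ∑ v ∈ S₀, w v * nr p v + s * uu p = 0 := by
    intro p hp
    have := hcon p hp
    rwa [sum_insert h2] at this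
  have hw : ∀ v ∈ S₀, w v = 0 := by
    by_contra hw
    push Not at hw
    obtain ⟨p, hp, hp8, hpn⟩ := hN w hw
    have e := key p hp
    have e1 : nr p 2 = 0 := by
      rw [nr_two (h1 p hp).1 (h1 p hp).2, if_pos (Or.inl hp8)]
    have e2 : uu p = 0 := by
      unfold uu
      rw [if_neg (by omega)]
    rw [e1, e2, mul_zero, zero_add, mul_zero, add_zero] at e
    exact hpn e
  have hsum : ∀ p, ∑ v ∈ S₀, w v * nr p v = 0 := fun p =>
    sum_eq_zero fun v hv => by rw [hw v hv, zero_mul]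
  have hw2 : w 2 = 0 := by
    obtain ⟨p, hp, hp8⟩ := h5
    have e := key p hp
    have e1 : nr p 2 = 1 := by
      rw [nr_two (h1 p hp).1 (h1 p hp).2, if_neg (by omega)]
    have e2 : uu p = 0 := by
      unfold uu
      rw [if_neg (by omega)]
    rw [e1, e2, hsum, mul_zero, add_zero, add_zero, mul_one] at e
    exact e
  have hs : s = 0 := by
    obtain ⟨p, hp, hp8⟩ := h3
    have e := key p hp
    have e2 : uu p = 1 := by
      unfold uu
      rw [if_pos (by omega)]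
    rw [e2, hsum, hw2, zero_mul, add_zero, zero_add, mul_one] at e
    exact e
  rcases hws with ⟨v, hv, hv0⟩ | hs0
  · rcases mem_insert.1 hv with rfl | hv
    · exact hv0 hw2
    · exact hv0 (hw v hv)
  · exact hs0 hs

/-! ### BIL -/

open Pool.Agent.Y710.CQ (xi bil sg_xi)

/-- the characteristic function of the numbers `3` modulo `4` -/
noncomputable def t4 (p : ℕ) : ℂ := if p % 4 = 3 then 1 else 0

theorem xi_recip {p q : ℕ} (hp : p.Prime) (hp2 : p ≠ 2) (hq : q.Prime) (hq2 : q ≠ 2) :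
    xi p q = xi q p - 2 * (t4 p * t4 q * xi q p) := by
  have o1 := hp.odd_of_ne_two hp2
  have o2 := hq.odd_of_ne_two hq2
  unfold xi t4
  have m1 : p % 4 = 1 ∨ p % 4 = 3 := by
    have := Nat.odd_iff.1 o1
    omega
  have m2 : q % 4 = 1 ∨ q % 4 = 3 := by
    have := Nat.odd_iff.1 o2
    omega
  rcases m1 with m1 | m1
  · rw [if_neg (by omega), jacobiSym.quadratic_reciprocity_one_mod_four (a := p) (b := q) m1 o2]
    ring
  · rcases m2 with m2 | m2
    · rw [if_neg (show ¬ q % 4 = 3 by omega),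
        ← jacobiSym.quadratic_reciprocity_one_mod_four (a := q) (b := p) m2 o1]
      ring
    · rw [if_pos m1, if_pos m2,
        jacobiSym.quadratic_reciprocity_three_mod_four (a := q) (b := p) m2 m1]
      push_cast
      ring

theorem norm_t4 (p : ℕ) : ‖t4 p‖ ≤ 1 := by
  unfold t4
  split_ifs <;> simp

theorem t_BIL : S_BIL := by
  refine ⟨3 ^ 12 * (3 * 6 ^ 6), by norm_num, ?_⟩
  intro P Q A B z c d hP hQ hdis hz hzA hzB hc hd
  have hne : ∀ p ∈ P, ∀ q ∈ Q, p ≠ q := fun p hp q hq he =>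
    (Finset.disjoint_left.1 hdis) hp (he ▸ hq)
  have hzr : (1 : ℝ) ≤ z := by exact_mod_cast hz
  have hP' : ∀ p ∈ P, p.Prime ∧ p ≠ 2 ∧ p ≤ A := fun p hp => ⟨(hP p hp).1.1, (hP p hp).1.2, (hP p hp).2⟩
  have hQ' : ∀ p ∈ Q, p.Prime ∧ p ≠ 2 ∧ p ≤ B := fun p hp => ⟨(hQ p hp).1.1, (hQ p hp).1.2, (hQ p hp).2⟩
  rcases le_total B A with hBA | hAB
  · have e1 : ∑ p ∈ P, ∑ q ∈ Q, c p * d q * sg (nr p q) =
        ∑ q ∈ Q, ∑ p ∈ P, d q * c p * xi q p -
          2 * ∑ q ∈ Q, ∑ p ∈ P, (d q * t4 q) * (c p * t4 p) * xi q p := by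
      rw [sum_comm, mul_sum, ← sum_sub_distrib]
      refine sum_congr rfl fun q hq => ?_
      rw [mul_sum, ← sum_sub_distrib]
      refine sum_congr rfl fun p hp => ?_
      obtain ⟨p1, p2, -⟩ := hP' p hp
      obtain ⟨q1, q2, -⟩ := hQ' q hq
      rw [sg_xi p1 q1 (hne p hp q hq), xi_recip p1 p2 q1 q2]
      ring
    have h1 := bil (hz.trans hzB) hBA hQ' hP' d c hd hc
    have hd' : ∀ q, ‖d q * t4 q‖ ≤ 1 := fun q => by
      rw [norm_mul]
      exact mul_le_one₀ (hd q) (norm_nonneg _) (norm_t4 q)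
    have hc' : ∀ q, ‖c q * t4 q‖ ≤ 1 := fun q => by
      rw [norm_mul]
      exact mul_le_one₀ (hc q) (norm_nonneg _) (norm_t4 q)
    have h1' := bil (hz.trans hzB) hBA hQ' hP' (fun q => d q * t4 q) (fun p => c p * t4 p) hd' hc'
    have h2 : (z : ℝ) ≤ B := by exact_mod_cast hzB
    set a := ‖∑ q ∈ Q, ∑ p ∈ P, d q * c p * xi q p‖ with ha
    set b := ‖∑ q ∈ Q, ∑ p ∈ P, (d q * t4 q) * (c p * t4 p) * xi q p‖ with hb
    have ha0 : 0 ≤ a := norm_nonneg _
    have hb0 : 0 ≤ b := norm_nonneg _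
    have e2 : ‖∑ p ∈ P, ∑ q ∈ Q, c p * d q * sg (nr p q)‖ ≤ 3 * max a b := by
      rw [e1]
      refine (norm_sub_le _ _).trans ?_
      rw [norm_mul, ← ha, ← hb]
      have e3 : ‖(2 : ℂ)‖ = 2 := by norm_num
      rw [e3]
      have e4 := le_max_left a b
      have e5 := le_max_right a b
      linarith
    have e3 : (max a b) ^ 12 ≤ 3 * 6 ^ 6 * ((B : ℝ) ^ 11 * (A : ℝ) ^ 12) := by
      rcases max_choice a b with h | h
      · rw [h]; exact h1
      · rw [h]; exact h1'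
    calc ‖∑ p ∈ P, ∑ q ∈ Q, c p * d q * sg (nr p q)‖ ^ 12 * z ≤
        (3 * max a b) ^ 12 * z := by gcongr
      _ = 3 ^ 12 * ((max a b) ^ 12 * z) := by ring
      _ ≤ 3 ^ 12 * ((3 * 6 ^ 6 * ((B : ℝ) ^ 11 * (A : ℝ) ^ 12)) * B) := by
          apply mul_le_mul_of_nonneg_left _ (by positivity)
          apply mul_le_mul e3 h2 (by positivity) (by positivity)
      _ = 3 ^ 12 * (3 * 6 ^ 6) * ((A : ℝ) * B) ^ 12 := by ring
  · have e1 : ∑ p ∈ P, ∑ q ∈ Q, c p * d q * sg (nr p q) =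
        ∑ p ∈ P, ∑ q ∈ Q, c p * d q * xi p q := by
      refine sum_congr rfl fun p hp => sum_congr rfl fun q hq => ?_
      rw [sg_xi (hP' p hp).1 (hQ' q hq).1 (hne p hp q hq)]
    rw [e1]
    have h1 := bil (hz.trans hzA) hAB hP' hQ' c d hc hd
    have h2 : (z : ℝ) ≤ A := by exact_mod_cast hzA
    calc ‖∑ p ∈ P, ∑ q ∈ Q, c p * d q * xi p q‖ ^ 12 * z ≤
        (3 * 6 ^ 6 * ((A : ℝ) ^ 11 * (B : ℝ) ^ 12)) * A := by
          apply mul_le_mul h1 h2 (by positivity) (by positivity)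
      _ = 1 * ((3 * 6 ^ 6) * ((A : ℝ) * B) ^ 12) := by ring
      _ ≤ 3 ^ 12 * ((3 * 6 ^ 6) * ((A : ℝ) * B) ^ 12) := by
          apply mul_le_mul_of_nonneg_right (by norm_num) (by positivity)
      _ = 3 ^ 12 * (3 * 6 ^ 6) * ((A : ℝ) * B) ^ 12 := by ring

end Pool.Agent.N19.GB
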